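import Pool.Agent.H4.SE.Targets

/-!
# Board sae_modules, row EC: bounds for the entropy
-/

set_option autoImplicit false

open Finset
open scoped Classical

namespace Pool.Agent.H94.SE4.EC

open Pool.Agent.H4.SE

theorem fib_pos {Ω α : Type} [Fintype Ω] (f : Ω → α) (x : Ω) : 0 < fib f x := by
  unfold fib
  exact Finset.card_pos.2 ⟨x, by simp⟩

theorem fib_le {Ω α : Type} [Fintype Ω] (f : Ω → α) (x : Ω) : fib f x ≤ Fintype.card Ω := by
  unfold fib
  exact Finset.card_le_univ _

theorem ent_nonneg {Ω α : Type} [Fintype Ω] (f : Ω → α) : 0 ≤ ent f := by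
  unfold ent
  refine div_nonneg (Finset.sum_nonneg fun x _ => ?_) (Nat.cast_nonneg _)
  have h1 : Real.log (fib f x) ≤ Real.log (Fintype.card Ω) :=
    Real.log_le_log (Nat.cast_pos.2 (fib_pos f x)) (Nat.cast_le.2 (fib_le f x))
  linarith

theorem sum_inv_fib {Ω γ : Type} [Fintype Ω] [Fintype γ] (g : Ω → γ) :
    ∑ x, 1 / (fib g x : ℝ) ≤ Fintype.card γ := by
  rw [← Finset.sum_fiberwise univ g]
  have h1 : ∀ c ∈ (univ : Finset γ), ∑ x ∈ univ.filter (fun x => g x = c), 1 / (fib g x : ℝ) ≤ 1 := by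
    intro c _
    have h2 : ∀ x ∈ univ.filter (fun x => g x = c), 1 / (fib g x : ℝ) =
        1 / ((univ.filter (fun x => g x = c)).card : ℝ) := by
      intro x hx
      have hx' : g x = c := (mem_filter.1 hx).2
      unfold fib
      rw [hx']
    rw [Finset.sum_congr rfl h2, Finset.sum_const, nsmul_eq_mul, mul_one_div]
    exact div_self_le_one _
  calc ∑ c, ∑ x ∈ univ.filter (fun x => g x = c), 1 / (fib g x : ℝ) ≤ ∑ _c : γ, (1 : ℝ) :=
        Finset.sum_le_sum h1
    _ = Fintype.card γ := by rw [Finset.sum_const, Finset.card_univ, nsmul_eq_mul, mul_one]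

theorem ent_le {Ω γ : Type} [Fintype Ω] [Fintype γ] [Nonempty Ω] (g : Ω → γ) :
    ent g ≤ Real.log (Fintype.card γ) := by
  obtain ⟨x₀⟩ := ‹Nonempty Ω›
  have : Nonempty Ω := ⟨x₀⟩
  have : Nonempty γ := ⟨g x₀⟩
  have hn : (0 : ℝ) < Fintype.card Ω := Nat.cast_pos.2 Fintype.card_pos
  have hK : (0 : ℝ) < Fintype.card γ := Nat.cast_pos.2 Fintype.card_pos
  have h1 : ∀ x : Ω, Real.log (Fintype.card Ω) - Real.log (fib g x) ≤
      Real.log (Fintype.card γ) + (Fintype.card Ω / Fintype.card γ * (1 / (fib g x : ℝ)) - 1) := by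
    intro x
    have hf : (0 : ℝ) < fib g x := Nat.cast_pos.2 (fib_pos g x)
    have h2 := Real.log_le_sub_one_of_pos (x := Fintype.card Ω / Fintype.card γ * (1 / (fib g x : ℝ)))
      (by positivity)
    rw [Real.log_mul (by positivity) (by positivity), Real.log_div hn.ne' hK.ne',
      Real.log_div one_ne_zero hf.ne', Real.log_one] at h2
    linarith
  unfold ent
  rw [div_le_iff₀ hn]
  calc ∑ x, (Real.log (Fintype.card Ω) - Real.log (fib g x)) ≤
      ∑ x, (Real.log (Fintype.card γ) +
        (Fintype.card Ω / Fintype.card γ * (1 / (fib g x : ℝ)) - 1)) :=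
        Finset.sum_le_sum fun x _ => h1 x
    _ = Fintype.card Ω * Real.log (Fintype.card γ) +
        (Fintype.card Ω / Fintype.card γ * ∑ x, 1 / (fib g x : ℝ) - Fintype.card Ω) := by
        rw [Finset.sum_add_distrib, Finset.sum_sub_distrib, ← Finset.mul_sum, Finset.sum_const,
          Finset.sum_const, Finset.card_univ, nsmul_eq_mul, nsmul_eq_mul, mul_one]
    _ ≤ Fintype.card Ω * Real.log (Fintype.card γ) +
        (Fintype.card Ω / Fintype.card γ * Fintype.card γ - Fintype.card Ω) := by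
        have := mul_le_mul_of_nonneg_left (sum_inv_fib g)
          (show (0 : ℝ) ≤ Fintype.card Ω / Fintype.card γ by positivity)
        linarith
    _ = Real.log (Fintype.card γ) * Fintype.card Ω := by
        field_simp
        ring

theorem pf_EC (hEM : T_EM) (hES : T_ES) : T_EC := by
  intro Ω α γ _ _ _ f g
  refine ⟨ent_nonneg f, ent_le g, ?_⟩
  have h1 := hES Ω α γ Unit f g (fun _ => ())
  have h2 : ent (fun x => (f x, ())) ≤ ent f :=
    hEM Ω α (α × Unit) f (fun x => (f x, ())) (fun x y h => by rw [h])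
  have h3 : ent (fun x => (g x, ())) ≤ ent g :=
    hEM Ω γ (γ × Unit) g (fun x => (g x, ())) (fun x y h => by rw [h])
  have h4 : ent (fun x => (f x, g x)) ≤ ent (fun x => (f x, g x, ())) :=
    hEM Ω (α × γ × Unit) (α × γ) (fun x => (f x, g x, ())) (fun x => (f x, g x))
      (fun x y h => by
        simp only [Prod.mk.injEq] at h ⊢
        exact ⟨h.1, h.2.1⟩)
  have h5 : 0 ≤ ent (fun _ : Ω => ()) := ent_nonneg _
  linarith

end Pool.Agent.H94.SE4.EC
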