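import Pool.Agent.H4.SE.Targets

/-!
# Board sae_modules, row EI: entropy and slices
-/

set_option autoImplicit false

open Finset
open scoped Classical

namespace Pool.Agent.H94.SE4.EI

open Pool.Agent.H4.SE

theorem fib_slice {Ω Ω₂ α : Type} [Fintype Ω] [Fintype Ω₂] (f : Ω → Ω₂ → α) (x : Ω) (b : Ω₂) :
    fib (fun x : Ω × Ω₂ => (f x.1 x.2, x.2)) (x, b) = fib (fun x => f x b) x := by
  unfold fib
  refine Finset.card_bij' (fun y _ => y.1) (fun y _ => (y, b)) ?_ ?_ ?_ ?_
  · rintro ⟨y, c⟩ hy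
    simp only [mem_filter, mem_univ, true_and, Prod.mk.injEq] at hy ⊢
    obtain ⟨h1, rfl⟩ := hy
    exact h1
  · intro y hy
    simp only [mem_filter, mem_univ, true_and] at hy ⊢
    rw [hy]
  · rintro ⟨y, c⟩ hy
    simp only [mem_filter, mem_univ, true_and, Prod.mk.injEq] at hy ⊢
    obtain ⟨h1, rfl⟩ := hy
    rfl
  · intro y hy
    rfl

theorem pf_EI : T_EI := by
  intro Ω Ω₂ α _ _ _ _ f
  have hn : (Fintype.card Ω : ℝ) ≠ 0 := Nat.cast_ne_zero.2 Fintype.card_ne_zero
  have hm : (Fintype.card Ω₂ : ℝ) ≠ 0 := Nat.cast_ne_zero.2 Fintype.card_ne_zero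
  unfold ent
  have h1 : (∑ x : Ω × Ω₂, (Real.log (Fintype.card (Ω × Ω₂)) -
      Real.log (fib (fun x : Ω × Ω₂ => (f x.1 x.2, x.2)) x))) =
      Fintype.card Ω * Fintype.card Ω₂ * Real.log (Fintype.card Ω₂) +
      ∑ b, ∑ x, (Real.log (Fintype.card Ω) - Real.log (fib (fun x => f x b) x)) := by
    rw [Fintype.sum_prod_type_right]
    have h2 : ∀ b : Ω₂, ∑ x : Ω, (Real.log (Fintype.card (Ω × Ω₂)) -
        Real.log (fib (fun x : Ω × Ω₂ => (f x.1 x.2, x.2)) (x, b))) =
        Fintype.card Ω * Real.log (Fintype.card Ω₂) +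
        ∑ x, (Real.log (Fintype.card Ω) - Real.log (fib (fun x => f x b) x)) := by
      intro b
      have h3 : ∀ x : Ω, (Real.log (Fintype.card (Ω × Ω₂)) -
          Real.log (fib (fun x : Ω × Ω₂ => (f x.1 x.2, x.2)) (x, b))) =
          Real.log (Fintype.card Ω₂) +
          (Real.log (Fintype.card Ω) - Real.log (fib (fun x => f x b) x)) := by
        intro x
        rw [fib_slice, Fintype.card_prod, Nat.cast_mul, Real.log_mul hn hm]
        ring
      rw [Finset.sum_congr rfl fun x _ => h3 x, Finset.sum_add_distrib, Finset.sum_const,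
        Finset.card_univ, nsmul_eq_mul]
    rw [Finset.sum_congr rfl fun b _ => h2 b, Finset.sum_add_distrib, Finset.sum_const,
      Finset.card_univ, nsmul_eq_mul]
    ring
  rw [h1, Fintype.card_prod, Nat.cast_mul, ← Finset.sum_div]
  field_simp

end Pool.Agent.H94.SE4.EI
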